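import Pool.Agent.Q146.LDim.Upper

/-!
# The maximum local `t`-dimension of an `n`-element poset is asymptotic to `n / (4 log₂ n)`

A partial function `f : P → {1 < ⋯ < t}` is modelled by `f : P → Option (Fin t)`, the value `none`
meaning that the point is outside the domain.
-/

set_option autoImplicit false

open Filter Topology Finset

namespace Pool.Agent.Results.MP_bb6eef_co.Asymptotics

/-- The partial function `f` is monotone on its domain. -/
def MonotonePartial (t : ℕ) (P : Type) [PartialOrder P] (f : P → Option (Fin t)) : Prop :=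
  ∀ x y : P, x ≤ y → ∀ a b : Fin t, f x = some a → f y = some b → a ≤ b

/-- `R` is a local `t`-realiser of `P`: a set of monotone partial functions such that for all
`x`, `y` with `x ≱ y` some `f ∈ R` is defined at `x` and `y` and has `f x < f y`. -/
def IsLocalRealiser (t : ℕ) (P : Type) [PartialOrder P] (R : Set (P → Option (Fin t))) : Prop :=
  (∀ f ∈ R, MonotonePartial t P f) ∧
    ∀ x y : P, ¬ y ≤ x → ∃ f ∈ R, ∃ a b : Fin t, f x = some a ∧ f y = some b ∧ a < b

/-- The multiplicity of `x` in `R`: the number of `f ∈ R` defined at `x`. -/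
noncomputable def mult {t : ℕ} {P : Type} (R : Set (P → Option (Fin t))) (x : P) : ℕ :=
  {f | f ∈ R ∧ f x ≠ none}.ncard

/-- The local `t`-dimension. -/
noncomputable def ldim (t : ℕ) (P : Type) [PartialOrder P] : ℕ :=
  sInf {k | ∃ R : Set (P → Option (Fin t)), IsLocalRealiser t P R ∧ ∀ x, mult R x ≤ k}

/-- `M t n` is the maximum of `ldim t P` over the posets `P` with `n` elements. -/
noncomputable def M (t n : ℕ) : ℕ :=
  sSup {k | ∃ (P : Type) (_ : PartialOrder P), Finite P ∧ Nonempty P ∧ Nat.card P = n ∧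
    ldim t P = k}

/-! ### Basic facts -/

lemma all_realiser (t : ℕ) (ht : 2 ≤ t) (P : Type) [PartialOrder P] :
    IsLocalRealiser t P {f | MonotonePartial t P f} := by
  classical
  refine ⟨fun f hf => hf, fun x y hxy => ?_⟩
  have hne : y ≠ x := fun h => hxy (h ▸ le_rfl)
  refine ⟨fun z => if z = x then some ⟨0, by omega⟩ else if z = y then some ⟨1, by omega⟩ else none,
    ?_, ⟨0, by omega⟩, ⟨1, by omega⟩, by simp, by simp [hne], by simp [Fin.lt_def]⟩
  intro u v huv a b ha hb
  by_cases hu : u = x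
  · simp only [hu, if_true, Option.some.injEq] at ha
    rw [← ha]
    exact Fin.mk_le_of_le_val (Nat.zero_le _)
  · by_cases hu' : u = y
    · by_cases hv : v = x
      · rw [hu', hv] at huv
        exact absurd huv hxy
      · by_cases hv' : v = y
        · simp only [hu, hu', hv, hv', if_true, if_false, hne, Option.some.injEq] at ha hb
          rw [← ha, ← hb]
        · simp [hv, hv'] at hb
    · simp [hu, hu'] at ha

lemma ldim_mem (t : ℕ) (ht : 2 ≤ t) (P : Type) [PartialOrder P] [Finite P] :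
    ∃ R : Set (P → Option (Fin t)), IsLocalRealiser t P R ∧ ∀ x, mult R x ≤ ldim t P := by
  have h : Set.Nonempty {k | ∃ R : Set (P → Option (Fin t)), IsLocalRealiser t P R ∧
      ∀ x, mult R x ≤ k} := by
    refine ⟨(Set.univ : Set (P → Option (Fin t))).ncard, _, all_realiser t ht P, fun x => ?_⟩
    exact Set.ncard_le_ncard (Set.subset_univ _) (Set.toFinite _)
  exact Nat.sInf_mem h

lemma ldim_le_pow (t : ℕ) (ht : 2 ≤ t) (P : Type) [PartialOrder P] [Finite P] :
    ldim t P ≤ (t + 1) ^ Nat.card P := by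
  refine Nat.sInf_le ⟨_, all_realiser t ht P, fun x => ?_⟩
  refine (Set.ncard_le_ncard (Set.subset_univ _) (Set.toFinite _)).trans ?_
  rw [Set.ncard_univ, Nat.card_fun]
  simp

lemma bdd (t n : ℕ) (ht : 2 ≤ t) : BddAbove {k | ∃ (P : Type) (_ : PartialOrder P), Finite P ∧
    Nonempty P ∧ Nat.card P = n ∧ ldim t P = k} := by
  refine ⟨(t + 1) ^ n, ?_⟩
  rintro k ⟨P, i, hf, _, rfl, rfl⟩
  exact ldim_le_pow t ht P

lemma ldim_le_M (t : ℕ) (ht : 2 ≤ t) (P : Type) [PartialOrder P] [Finite P] [Nonempty P] :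
    ldim t P ≤ M t (Nat.card P) :=
  le_csSup (bdd t _ ht) ⟨P, inferInstance, inferInstance, inferInstance, rfl, rfl⟩

lemma M_mem (t n : ℕ) (ht : 2 ≤ t) (hn : 1 ≤ n) : ∃ (P : Type) (_ : PartialOrder P), Finite P ∧
    Nonempty P ∧ Nat.card P = n ∧ ldim t P = M t n := by
  have h : Set.Nonempty {k | ∃ (P : Type) (_ : PartialOrder P), Finite P ∧
      Nonempty P ∧ Nat.card P = n ∧ ldim t P = k} :=
    ⟨_, Fin n, inferInstance, inferInstance, ⟨⟨0, hn⟩⟩, by simp, rfl⟩
  exact Nat.sSup_mem h (bdd t n ht)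

/-! ### The upper bound -/

lemma ldim_le_of_cover (t : ℕ) (ht : 2 ≤ t) (c : ℝ) (n : ℕ)
    (H : ∀ r : Fin n → Fin n → Prop, (∀ x y, r x y → x ≤ y) →
      (∀ x y z, r x y → r y z → r x z) →
      Q146.LD.Cover r (fun x y => x ≠ y ∧ ¬ r y x) (fun _ => c))
    (P : Type) [PartialOrder P] [Finite P] [Nonempty P] (hP : Nat.card P = n) :
    (ldim t P : ℝ) ≤ c := by
  classical
  haveI : Finite (LinearExtension P) := inferInstanceAs (Finite P)
  haveI := Fintype.ofFinite (LinearExtension P)
  have hc : Fintype.card (LinearExtension P) = n := by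
    rw [← Nat.card_eq_fintype_card]
    exact hP
  obtain ⟨e, he⟩ : ∃ e : P ≃ Fin n, ∀ x y, x ≤ y → e x ≤ e y := by
    refine ⟨(Fintype.orderIsoFinOfCardEq (LinearExtension P) hc).symm.toEquiv, fun x y hxy => ?_⟩
    exact (Fintype.orderIsoFinOfCardEq (LinearExtension P) hc).symm.monotone
      (toLinearExtension.monotone hxy)
  obtain ⟨κ, hκ, A, B, h1, h2, h3⟩ := H (fun x y => e.symm x ≤ e.symm y)
    (fun x y hxy => by simpa using he _ _ hxy) (fun x y z hxy hyz => hxy.trans hyz)
  set f : κ → P → Option (Fin t) := fun k x =>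
    if e x ∈ A k then some ⟨0, by omega⟩ else if e x ∈ B k then some ⟨1, by omega⟩ else none with hf
  have hR : IsLocalRealiser t P (Set.range f) := by
    constructor
    · rintro _ ⟨k, rfl⟩ x y hxy a b ha hb
      by_cases hx : e x ∈ A k
      · simp only [hf, hx, if_true, Option.some.injEq] at ha
        rw [← ha]
        exact Fin.mk_le_of_le_val (Nat.zero_le _)
      · by_cases hx' : e x ∈ B k
        · by_cases hy : e y ∈ A k
          · have := h1 k _ hy _ hx'
            simp only [Equiv.symm_apply_apply] at this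
            exact absurd hxy this
          · by_cases hy' : e y ∈ B k
            · simp only [hf, hx, hx', hy, hy', if_true, if_false, Option.some.injEq] at ha hb
              rw [← ha, ← hb]
            · simp [hf, hy, hy'] at hb
        · simp [hf, hx, hx'] at ha
    · intro x y hxy
      obtain ⟨k, hx, hy⟩ := h2 (e x) (e y) ⟨fun h => hxy (e.injective h ▸ le_rfl), by simpa using hxy⟩
      have hy' : e y ∉ A k := by
        intro h
        have := h1 k _ h _ hy
        exact this le_rfl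
      refine ⟨_, ⟨k, rfl⟩, ⟨0, by omega⟩, ⟨1, by omega⟩, by simp [hf, hx], by simp [hf, hy, hy'],
        by simp [Fin.lt_def]⟩
  have hm : ∀ x, (mult (Set.range f) x : ℝ) ≤ c := by
    intro x
    refine le_trans ?_ (h3 (e x))
    have hsub : {g | g ∈ Set.range f ∧ g x ≠ none} ⊆
        (↑((univ.filter (fun k => e x ∈ A k ∨ e x ∈ B k)).image f) : Set (P → Option (Fin t))) := by
      rintro _ ⟨⟨k, rfl⟩, hk⟩
      simp only [Finset.coe_image, Set.mem_image, Finset.coe_filter, Finset.mem_univ, true_and]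
      refine ⟨k, ?_, rfl⟩
      by_contra hc
      apply hk
      have hc' : ¬ (e x ∈ A k ∨ e x ∈ B k) := hc
      rw [not_or] at hc'
      simp [hf, hc'.1, hc'.2]
    have h4 := Set.ncard_le_ncard hsub (Finset.finite_toSet _)
    rw [Set.ncard_coe_finset] at h4
    exact_mod_cast h4.trans Finset.card_image_le
  have hfl : ∀ x, mult (Set.range f) x ≤ ⌊c⌋₊ := fun x => Nat.le_floor (hm x)
  have h5 : ldim t P ≤ ⌊c⌋₊ := Nat.sInf_le ⟨_, hR, hfl⟩
  have hc0 : 0 ≤ c := by
    obtain ⟨x⟩ := ‹Nonempty P›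
    exact (Nat.cast_nonneg _).trans (hm x)
  exact (Nat.cast_le.2 h5).trans (Nat.floor_le hc0)

lemma upper (t : ℕ) (ht : 2 ≤ t) (ε : ℝ) (h0 : 0 < ε) (h1 : ε ≤ 1) :
    ∀ᶠ n : ℕ in atTop, (M t n : ℝ) ≤ (1/4 + ε) * ((n:ℝ) / Real.logb 2 n) := by
  filter_upwards [Q146.LD.upper ε h0 h1, eventually_ge_atTop 1] with n hn hn1
  obtain ⟨P, i, hf, hne, hc, hM⟩ := M_mem t n ht hn1
  rw [← hM]
  exact ldim_le_of_cover t ht _ n hn P hc

/-! ### The lower bound -/

lemma small_subsets (α : Type) [Fintype α] [DecidableEq α] (k : ℕ) (z : ℝ) (hz : 0 < z)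
    (hz1 : z ≤ 1) :
    (Fintype.card {S : Finset α // S.card ≤ k} : ℝ) ≤ z⁻¹ ^ k * (1 + z) ^ (Fintype.card α) := by
  rw [Fintype.card_subtype, ← Finset.sum_boole]
  have h2 : ∑ P : Finset α, z ^ P.card = (1 + z) ^ Fintype.card α := by
    have := Finset.sum_pow_mul_eq_add_pow z 1 (univ : Finset α)
    simp only [one_pow, mul_one, Finset.powerset_univ, Finset.card_univ] at this
    rw [this, add_comm]
  rw [← h2, Finset.mul_sum]
  apply Finset.sum_le_sum
  intro P _
  split_ifs with hP
  · have hzi : 1 ≤ z⁻¹ := (one_le_inv₀ hz).2 hz1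
    calc (1:ℝ) = z⁻¹ ^ P.card * z ^ P.card := by
          rw [← mul_pow, inv_mul_cancel₀ hz.ne', one_pow]
      _ ≤ z⁻¹ ^ k * z ^ P.card := by
          apply mul_le_mul_of_nonneg_right _ (by positivity)
          exact pow_le_pow_right₀ hzi hP
  · positivity

/-- the ground set of a height two poset -/
def BP (a b : ℕ) : Type := Fin a ⊕ Fin b

instance (a b : ℕ) : Finite (BP a b) := inferInstanceAs (Finite (Fin a ⊕ Fin b))

/-- the height two poset given by a bipartite graph -/
@[reducible] def bipo {a b : ℕ} (E : Finset (Fin a × Fin b)) : PartialOrder (BP a b) where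
  le x y := x = y ∨ ∃ i j, x = Sum.inl i ∧ y = Sum.inr j ∧ (i, j) ∈ E
  le_refl x := Or.inl rfl
  le_trans x y z := by
    rintro (rfl | ⟨i, j, rfl, rfl, h⟩) h'
    · exact h'
    · rcases h' with rfl | ⟨i', j', h1, h2, h3⟩
      · exact Or.inr ⟨i, j, rfl, rfl, h⟩
      · exact absurd h1 Sum.inr_ne_inl
  le_antisymm x y := by
    rintro (rfl | ⟨i, j, rfl, rfl, h⟩) h'
    · rfl
    · rcases h' with h' | ⟨i', j', h1, h2, h3⟩
      · exact h'.symm
      · exact absurd h1 Sum.inr_ne_inl

lemma bipo_le {a b : ℕ} (E : Finset (Fin a × Fin b)) (i : Fin a) (j : Fin b) :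
    (bipo E).le (Sum.inl i) (Sum.inr j) ↔ (i, j) ∈ E := by
  constructor
  · rintro (h | ⟨i', j', h1, h2, h3⟩)
    · exact absurd h Sum.inl_ne_inr
    · rw [Sum.inl.inj h1, Sum.inr.inj h2]
      exact h3
  · intro h
    exact Or.inr ⟨i, j, rfl, rfl, h⟩

lemma code (t : ℕ) (ht : 2 ≤ t) (P : Type) [PartialOrder P] [Finite P] (k N : ℕ)
    (hN : Nat.card P = N) (hk : ldim t P ≤ k) : ∃ c : P → Finset (Fin (N * k) × Fin t),
      (∀ x, (c x).card ≤ k) ∧
      ∀ x y : P, y ≤ x ↔ ¬ ∃ s u v, u < v ∧ (s, u) ∈ c x ∧ (s, v) ∈ c y := by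
  classical
  subst hN
  obtain ⟨R, hR, hm⟩ := ldim_mem t ht P
  haveI := Fintype.ofFinite P
  haveI : Finite R := Subtype.finite
  set F : Finset (P → Option (Fin t)) := univ.filter (fun f => f ∈ R ∧ ∃ x, f x ≠ none) with hF
  have hmc : ∀ x, (univ.filter (fun f : P → Option (Fin t) => f ∈ R ∧ f x ≠ none)).card ≤ k := by
    intro x
    have h1 := (hm x).trans hk
    rw [mult] at h1
    have e : (↑(univ.filter (fun f : P → Option (Fin t) => f ∈ R ∧ f x ≠ none)) :
        Set (P → Option (Fin t))) = {f | f ∈ R ∧ f x ≠ none} := by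
      ext f
      simp
    rw [← Set.ncard_coe_finset, e]
    exact h1
  have hFc : F.card ≤ Nat.card P * k := by
    have h1 : F ⊆ univ.biUnion (fun x => univ.filter (fun f : P → Option (Fin t) => f ∈ R ∧ f x ≠ none)) := by
      intro f hf
      simp only [hF, Finset.mem_filter, Finset.mem_univ, true_and] at hf
      obtain ⟨hf1, x, hx⟩ := hf
      simp only [Finset.mem_biUnion, Finset.mem_filter, Finset.mem_univ, true_and]
      exact ⟨x, hf1, hx⟩
    refine (Finset.card_le_card h1).trans ((Finset.card_biUnion_le).trans ?_)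
    refine (Finset.sum_le_sum (fun x _ => hmc x)).trans ?_
    rw [Finset.sum_const, smul_eq_mul, Finset.card_univ, Nat.card_eq_fintype_card]
  obtain ⟨ι⟩ : Nonempty (F ↪ Fin (Nat.card P * k)) := by
    apply Function.Embedding.nonempty_of_card_le
    simpa using hFc
  refine ⟨fun x => F.attach.biUnion (fun f => (univ.filter (fun v => f.1 x = some v)).image
    (fun v => (ι f, v))), ?_, ?_⟩
  · intro x
    have h1 : (F.attach.biUnion (fun f => (univ.filter (fun v => f.1 x = some v)).image
        (fun v => (ι f, v)))).card ≤ ∑ f ∈ F.attach, (if f.1 x ≠ none then 1 else 0) := by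
      refine (Finset.card_biUnion_le).trans (Finset.sum_le_sum (fun f _ => ?_))
      refine Finset.card_image_le.trans ?_
      cases hfx : f.1 x with
      | none => simp
      | some w =>
        simp only [Option.some.injEq, ne_eq, reduceCtorEq, not_false_eq_true, if_true]
        rw [Finset.filter_eq]
        simp
    refine h1.trans ?_
    rw [Finset.sum_attach F (fun f => if f x ≠ none then 1 else 0), Finset.sum_boole]
    refine le_trans ?_ (hmc x)
    simp only [Nat.cast_id]
    apply Finset.card_le_card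
    intro f hf
    simp only [hF, Finset.mem_filter, Finset.mem_univ, true_and] at hf ⊢
    exact ⟨hf.1.1, hf.2⟩
  · intro x y
    constructor
    · rintro hyx ⟨s, u, v, huv, h1, h2⟩
      simp only [Finset.mem_biUnion, Finset.mem_attach, true_and, Finset.mem_image,
        Finset.mem_filter, Finset.mem_univ, Prod.mk.injEq] at h1 h2
      obtain ⟨f, u', hu', hs, rfl⟩ := h1
      obtain ⟨g, v', hv', hs', rfl⟩ := h2
      have hfg : f = g := ι.injective (hs.trans hs'.symm)
      subst hfg
      have hfR : f.1 ∈ R := by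
        have := f.2
        simp only [hF, Finset.mem_filter] at this
        exact this.2.1
      have := hR.1 f.1 hfR y x hyx _ _ hv' hu'
      exact absurd huv (not_lt.2 this)
    · intro hc
      by_contra hyx
      obtain ⟨f, hf, a, b, ha, hb, hab⟩ := hR.2 x y hyx
      have hfF : f ∈ F := by
        simp only [hF, Finset.mem_filter, Finset.mem_univ, true_and]
        exact ⟨hf, x, by simp [ha]⟩
      apply hc
      refine ⟨ι ⟨f, hfF⟩, a, b, hab, ?_, ?_⟩
      · simp only [Finset.mem_biUnion, Finset.mem_attach, true_and, Finset.mem_image,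
          Finset.mem_filter, Finset.mem_univ]
        exact ⟨⟨f, hfF⟩, a, ha, rfl⟩
      · simp only [Finset.mem_biUnion, Finset.mem_attach, true_and, Finset.mem_image,
          Finset.mem_filter, Finset.mem_univ]
        exact ⟨⟨f, hfF⟩, b, hb, rfl⟩

lemma count (t : ℕ) (ht : 2 ≤ t) (a b : ℕ) (ha : 0 < a) :
    (2:ℝ) ^ (a * b) ≤ ((Fintype.card {S : Finset (Fin ((a + b) * M t (a + b)) × Fin t) //
      S.card ≤ M t (a + b)} : ℕ) : ℝ) ^ (a + b) := by
  classical
  haveI : Fintype (BP a b) := inferInstanceAs (Fintype (Fin a ⊕ Fin b))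
  have hcard : Nat.card (BP a b) = a + b := by
    change Nat.card (Fin a ⊕ Fin b) = a + b
    simp
  have hne : Nonempty (BP a b) := ⟨(Sum.inl ⟨0, ha⟩ : Fin a ⊕ Fin b)⟩
  have hex : ∀ E : Finset (Fin a × Fin b), ∃ c : BP a b → {S : Finset (Fin ((a + b) * M t (a + b)) × Fin t) //
      S.card ≤ M t (a + b)}, ∀ i j, (i, j) ∈ E ↔ ¬ ∃ s u v, u < v ∧
        (s, u) ∈ (c (Sum.inr j)).1 ∧ (s, v) ∈ (c (Sum.inl i)).1 := by
    intro E
    let _ := bipo E
    have h1 := ldim_le_M t ht (BP a b)
    rw [hcard] at h1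
    obtain ⟨c, hc1, hc2⟩ := code t ht (BP a b) _ _ hcard h1
    refine ⟨fun x => ⟨c x, hc1 x⟩, fun i j => ?_⟩
    rw [← bipo_le E i j]
    exact hc2 (Sum.inr j) (Sum.inl i)
  choose c hc using hex
  have hinj : Function.Injective c := by
    intro E E' h
    ext ⟨i, j⟩
    rw [hc E i j, hc E' i j, h]
  have h1 := Fintype.card_le_of_injective c hinj
  rw [Fintype.card_finset, Fintype.card_prod, Fintype.card_fin, Fintype.card_fin,
    Fintype.card_fun] at h1
  have h2 : Fintype.card (BP a b) = a + b := by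
    rw [← Nat.card_eq_fintype_card, hcard]
  rw [h2] at h1
  exact_mod_cast h1

lemma count_log (t : ℕ) (ht : 2 ≤ t) (a b : ℕ) (ha : 0 < a) :
    ((a * b : ℕ) : ℝ) * Real.log 2 ≤
      ((a + b : ℕ) : ℝ) * (M t (a + b) * (Real.log (a + b : ℕ) + Real.log t + 1)) := by
  set n := a + b with hn
  have hn0 : (0:ℝ) < n := by
    have : 0 < n := by omega
    exact_mod_cast this
  have ht0 : (0:ℝ) < t := by
    have : 0 < t := by omega
    exact_mod_cast this
  have hn1 : (1:ℝ) ≤ n := by
    have : 1 ≤ n := by omega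
    exact_mod_cast this
  have ht1 : (1:ℝ) ≤ t := by
    have : 1 ≤ t := by omega
    exact_mod_cast this
  have h1 := count t ht a b ha
  rw [← hn] at h1
  set k := M t n with hk
  have hnt : (0:ℝ) < n * t := by positivity
  have h2 := small_subsets (Fin (n * k) × Fin t) k (1 / (n * t)) (by positivity)
    (by rw [div_le_one hnt]; nlinarith)
  set c := Fintype.card {S : Finset (Fin (n * k) × Fin t) // S.card ≤ k} with hc
  have h3 : (c:ℝ) ≤ Real.exp (k * (Real.log n + Real.log t + 1)) := by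
    refine h2.trans ?_
    rw [Fintype.card_prod, Fintype.card_fin, Fintype.card_fin, one_div, inv_inv]
    have e1 : Real.exp (k * (Real.log n + Real.log t + 1)) = ((n:ℝ) * t) ^ k * Real.exp k := by
      have : (k:ℝ) * (Real.log n + Real.log t + 1) = k * Real.log (n * t) + k := by
        rw [Real.log_mul hn0.ne' ht0.ne']; ring
      rw [this, Real.exp_add, Real.exp_nat_mul, Real.exp_log hnt]
    rw [e1]
    apply mul_le_mul_of_nonneg_left _ (by positivity)
    calc (1 + ((n:ℝ) * t)⁻¹) ^ (n * k * t) ≤ (Real.exp ((n:ℝ) * t)⁻¹) ^ (n * k * t) := by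
          apply pow_le_pow_left₀ (by positivity)
          have := Real.add_one_le_exp ((n:ℝ) * t)⁻¹
          linarith
      _ = Real.exp k := by
          rw [← Real.exp_nat_mul]
          congr 1
          push_cast
          field_simp
  have h4 : (2:ℝ) ^ (a * b) ≤ Real.exp (n * (k * (Real.log n + Real.log t + 1))) := by
    refine h1.trans ?_
    rw [Real.exp_nat_mul]
    exact pow_le_pow_left₀ (by positivity) h3 _
  have h5 := Real.log_le_log (by positivity) h4
  rw [Real.log_exp, Real.log_pow] at h5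
  exact h5

lemma lower (t : ℕ) (ht : 2 ≤ t) (n : ℕ) (hn : 2 ≤ n) :
    (1 - 1 / (n:ℝ) ^ 2) / 4 * (Real.log n / (Real.log n + (Real.log t + 1))) ≤
      M t n * Real.logb 2 n / n := by
  have hn2 : (2:ℝ) ≤ n := by exact_mod_cast hn
  have ht0 : (1:ℝ) ≤ t := by
    have : 1 ≤ t := by omega
    exact_mod_cast this
  have h1 := count_log t ht (n / 2) (n - n / 2) (by omega)
  have e1 : n / 2 + (n - n / 2) = n := by omega
  rw [e1] at h1
  have hab : ((n:ℝ) ^ 2 - 1) / 4 ≤ ((n / 2 * (n - n / 2) : ℕ) : ℝ) := by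
    have h2 : n ^ 2 ≤ 4 * (n / 2 * (n - n / 2)) + 1 := by
      rcases Nat.even_or_odd' n with ⟨m, hm | hm⟩
      · have e2 : n / 2 = m := by omega
        rw [e2]
        have e3 : n - m = m := by omega
        rw [e3, hm]
        nlinarith
      · have e2 : n / 2 = m := by omega
        rw [e2]
        have e3 : n - m = m + 1 := by omega
        rw [e3, hm]
        nlinarith
    have h3 : ((n ^ 2 : ℕ) : ℝ) ≤ ((4 * (n / 2 * (n - n / 2)) + 1 : ℕ) : ℝ) := Nat.cast_le.2 h2
    rw [Nat.cast_pow, Nat.cast_add, Nat.cast_mul 4] at h3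
    push_cast at h3 ⊢
    linarith
  have hlog2 : 0 < Real.log 2 := Real.log_pos (by norm_num)
  have hlogn : 0 < Real.log n := Real.log_pos (by linarith)
  have hlogt : 0 ≤ Real.log t := Real.log_nonneg ht0
  have h2 : ((n:ℝ) ^ 2 - 1) / 4 * Real.log 2 ≤
      n * (M t n * (Real.log n + Real.log t + 1)) :=
    (mul_le_mul_of_nonneg_right hab hlog2.le).trans h1
  have hn0 : (0:ℝ) < n := by linarith
  rw [Real.logb]
  have hden : 0 < Real.log n + (Real.log t + 1) := by linarith
  have h3 : (1 - 1 / (n:ℝ) ^ 2) / 4 * (Real.log n / (Real.log n + (Real.log t + 1))) =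
      (((n:ℝ) ^ 2 - 1) / 4 * Real.log 2) * (Real.log n / Real.log 2 /
        (n ^ 2 * (Real.log n + (Real.log t + 1)))) := by
    field_simp
  have h4 : (M t n : ℝ) * (Real.log n / Real.log 2) / n =
      (n * (M t n * (Real.log n + Real.log t + 1))) * (Real.log n / Real.log 2 /
        (n ^ 2 * (Real.log n + (Real.log t + 1)))) := by
    have h5 : Real.log n + Real.log t + 1 = Real.log n + (Real.log t + 1) := by ring
    rw [h5]
    field_simp
  rw [h3, h4]
  exact mul_le_mul_of_nonneg_right h2 (by positivity)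

lemma lower_tendsto (c : ℝ) : Tendsto (fun n : ℕ => (1 - 1 / (n:ℝ) ^ 2) / 4 *
    (Real.log n / (Real.log n + c))) atTop (𝓝 (1/4)) := by
  have h1 : Tendsto (fun n : ℕ => (1:ℝ) / (n:ℝ) ^ 2) atTop (𝓝 0) := by
    have : Tendsto (fun n : ℕ => ((n:ℝ) ^ 2)) atTop atTop :=
      (tendsto_pow_atTop (two_ne_zero)).comp tendsto_natCast_atTop_atTop
    exact tendsto_const_nhds.div_atTop this
  have h2 : Tendsto (fun n : ℕ => Real.log (n:ℝ)) atTop atTop :=
    Real.tendsto_log_atTop.comp tendsto_natCast_atTop_atTop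
  have h3 : Tendsto (fun n : ℕ => Real.log n + c) atTop atTop :=
    tendsto_atTop_add_const_right _ _ h2
  have h4 : Tendsto (fun n : ℕ => c / (Real.log n + c)) atTop (𝓝 0) :=
    tendsto_const_nhds.div_atTop h3
  have h5 : Tendsto (fun n : ℕ => (1 - 1 / (n:ℝ) ^ 2) / 4 * (1 - c / (Real.log n + c))) atTop
      (𝓝 ((1 - 0) / 4 * (1 - 0))) :=
    ((tendsto_const_nhds.sub h1).div_const 4).mul (tendsto_const_nhds.sub h4)
  have e : ((1:ℝ) - 0) / 4 * (1 - 0) = 1 / 4 := by norm_num
  rw [e] at h5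
  refine h5.congr' ?_
  filter_upwards [h3.eventually_gt_atTop 0] with n hn
  congr 1
  field_simp
  ring

theorem asymptotic (t : ℕ) (ht : 2 ≤ t) :
    Tendsto (fun n : ℕ => (M t n : ℝ) * Real.logb 2 n / n) atTop (𝓝 (1/4)) := by
  rw [tendsto_order]
  constructor
  · intro a ha
    filter_upwards [(tendsto_order.1 (lower_tendsto (Real.log t + 1))).1 a ha,
      eventually_ge_atTop 2] with n hn hn2
    exact lt_of_lt_of_le hn (lower t ht n hn2)
  · intro a ha
    set ε : ℝ := min 1 ((a - 1/4) / 2) with hε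
    have h0 : 0 < ε := lt_min one_pos (by linarith)
    have h1 : ε ≤ 1 := min_le_left _ _
    have h2 : ε ≤ (a - 1/4) / 2 := min_le_right _ _
    filter_upwards [upper t ht ε h0 h1, eventually_ge_atTop 2] with n hn hn2
    have hn2' : (2:ℝ) ≤ n := by exact_mod_cast hn2
    have hn0 : (0:ℝ) < n := by linarith
    have hL : 0 < Real.logb 2 n := Real.logb_pos (by norm_num) (by linarith)
    have h3 : (M t n : ℝ) * Real.logb 2 n / n ≤ 1/4 + ε := by
      rw [div_le_iff₀ hn0]
      calc (M t n : ℝ) * Real.logb 2 n ≤ ((1/4 + ε) * ((n:ℝ) / Real.logb 2 n)) * Real.logb 2 n :=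
            mul_le_mul_of_nonneg_right hn hL.le
        _ = (1/4 + ε) * n := by field_simp
    linarith

/-- For every `t ≥ 2`, `M t n · log₂ n / n → 1/4`, that is, `M_t(n) ~ n / (4 log₂ n)`; moreover the
asymptotic behaviour does not depend on `t`: `M_t(n) / M_2(n) → 1`. -/
theorem result (t : ℕ) (ht : 2 ≤ t) :
    Tendsto (fun n : ℕ => (M t n : ℝ) * Real.logb 2 n / n) atTop (𝓝 (1 / 4)) ∧
    Tendsto (fun n : ℕ => (M t n : ℝ) / (M 2 n : ℝ)) atTop (𝓝 1) := by
  refine ⟨asymptotic t ht, ?_⟩
  have h := (asymptotic t ht).div (asymptotic 2 le_rfl) (by norm_num)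
  have e : (1:ℝ) / 4 / (1 / 4) = 1 := by norm_num
  rw [e] at h
  refine h.congr' ?_
  filter_upwards [eventually_ge_atTop 2] with n hn2
  have hn2' : (2:ℝ) ≤ n := by exact_mod_cast hn2
  have hn0 : (0:ℝ) < n := by linarith
  have hL : 0 < Real.logb 2 n := Real.logb_pos (by norm_num) (by linarith)
  simp only [Pi.div_apply]
  rw [div_div_div_cancel_right₀ hn0.ne', mul_div_mul_right _ _ hL.ne']

end Pool.Agent.Results.MP_bb6eef_co.Asymptotics
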